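import Pool.Agent.J6H91.TZ.Stm

/-!
# TZ-EV: the values of `B / P(r z)^m` on the torus
-/

set_option autoImplicit false
set_option maxHeartbeats 400000

namespace Pool.Agent.J6H97.TZEv

open MvPolynomial Filter Topology Pool.Agent.J6H91.Cyc Pool.Agent.J6H91.TZ

variable {σ : Type} [Fintype σ] [DecidableEq σ]

/-- absolute summability -/
def AS (G : MvPowerSeries σ ℂ) : Prop := Summable (fun k => ‖MvPowerSeries.coeff k G‖)

/-- the value at a point -/
noncomputable def vl (G : MvPowerSeries σ ℂ) (z : σ → ℂ) : ℂ :=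
  ∑' k, MvPowerSeries.coeff k G * ∏ j, z j ^ k j

theorem norm_mon {z : σ → ℂ} (hz : ∀ j, ‖z j‖ = 1) (k : σ →₀ ℕ) : ‖∏ j, z j ^ k j‖ = 1 := by
  rw [norm_prod]
  refine Finset.prod_eq_one fun j _ => ?_
  rw [norm_pow, hz, one_pow]

theorem AS.mul {F G : MvPowerSeries σ ℂ} (hF : AS F) (hG : AS G) : AS (F * G) := by
  have h1 : Summable fun x : (σ →₀ ℕ) × (σ →₀ ℕ) =>
      ‖MvPowerSeries.coeff x.1 F‖ * ‖MvPowerSeries.coeff x.2 G‖ :=
    Summable.mul_of_nonneg hF hG (fun _ => norm_nonneg _) (fun _ => norm_nonneg _)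
  have h2 := summable_sum_mul_antidiagonal_of_summable_mul
    (f := fun k => ‖MvPowerSeries.coeff k F‖) (g := fun k => ‖MvPowerSeries.coeff k G‖) h1
  refine Summable.of_nonneg_of_le (fun _ => norm_nonneg _) (fun k => ?_) h2
  rw [MvPowerSeries.coeff_mul]
  refine (norm_sum_le _ _).trans (Finset.sum_le_sum fun p _ => ?_)
  rw [norm_mul]

theorem vl_mul {F G : MvPowerSeries σ ℂ} (hF : AS F) (hG : AS G) {z : σ → ℂ} (hz : ∀ j, ‖z j‖ = 1) :
    vl (F * G) z = vl F z * vl G z := by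
  have hF' : Summable fun k => ‖MvPowerSeries.coeff k F * ∏ j, z j ^ k j‖ :=
    hF.congr fun k => by rw [norm_mul, norm_mon hz, mul_one]
  have hG' : Summable fun k => ‖MvPowerSeries.coeff k G * ∏ j, z j ^ k j‖ :=
    hG.congr fun k => by rw [norm_mul, norm_mon hz, mul_one]
  have h0 : Summable fun x : (σ →₀ ℕ) × (σ →₀ ℕ) => (MvPowerSeries.coeff x.1 F * ∏ j, z j ^ x.1 j) *
      (MvPowerSeries.coeff x.2 G * ∏ j, z j ^ x.2 j) :=
    summable_mul_of_summable_norm (f := fun k => MvPowerSeries.coeff k F * ∏ j, z j ^ k j)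
      (g := fun k => MvPowerSeries.coeff k G * ∏ j, z j ^ k j) hF' hG'
  have h1 := Summable.tsum_mul_tsum_eq_tsum_sum_antidiagonal
    (f := fun k => MvPowerSeries.coeff k F * ∏ j, z j ^ k j)
    (g := fun k => MvPowerSeries.coeff k G * ∏ j, z j ^ k j) hF'.of_norm hG'.of_norm h0
  unfold vl
  rw [h1]
  refine tsum_congr fun k => ?_
  rw [MvPowerSeries.coeff_mul, Finset.sum_mul]
  refine Finset.sum_congr rfl fun p hp => ?_
  have h2 : p.1 + p.2 = k := Finset.HasAntidiagonal.mem_antidiagonal.mp hp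
  have h3 : ∏ j, z j ^ k j = (∏ j, z j ^ p.1 j) * ∏ j, z j ^ p.2 j := by
    rw [← Finset.prod_mul_distrib]
    refine Finset.prod_congr rfl fun j _ => ?_
    rw [← h2, Finsupp.add_apply, pow_add]
  rw [h3]
  ring

theorem as_resc (P : MvPolynomial σ ℂ) (r : ℝ) :
    AS (MvPowerSeries.rescale (fun _ => (r : ℂ)) (P : MvPowerSeries σ ℂ)) := by
  refine summable_of_ne_finset_zero (s := P.support) fun k hk => ?_
  rw [MvPowerSeries.coeff_rescale, MvPolynomial.coeff_coe, MvPolynomial.notMem_support_iff.mp hk,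
    mul_zero, norm_zero]

theorem vl_resc (P : MvPolynomial σ ℂ) (r : ℝ) (z : σ → ℂ) :
    vl (MvPowerSeries.rescale (fun _ => (r : ℂ)) (P : MvPowerSeries σ ℂ)) z =
      eval (fun j => (r : ℂ) * z j) P := by
  unfold vl
  rw [tsum_eq_sum (s := P.support), MvPolynomial.eval_eq']
  · refine Finset.sum_congr rfl fun k _ => ?_
    rw [MvPowerSeries.coeff_rescale, MvPolynomial.coeff_coe, Finsupp.prod_fintype _ _ (by simp)]
    have h3 : ∏ j, ((r : ℂ) * z j) ^ k j = (∏ j, (r : ℂ) ^ k j) * ∏ j, z j ^ k j := by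
      rw [← Finset.prod_mul_distrib]
      exact Finset.prod_congr rfl fun j _ => mul_pow _ _ _
    rw [h3]
    ring
  · intro k hk
    rw [MvPowerSeries.coeff_rescale, MvPolynomial.coeff_coe, MvPolynomial.notMem_support_iff.mp hk,
      mul_zero, zero_mul]

theorem as_poly (B : MvPolynomial σ ℂ) : AS (B : MvPowerSeries σ ℂ) := by
  refine summable_of_ne_finset_zero (s := B.support) fun k hk => ?_
  rw [MvPolynomial.coeff_coe, MvPolynomial.notMem_support_iff.mp hk, norm_zero]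

theorem vl_poly (B : MvPolynomial σ ℂ) (z : σ → ℂ) : vl (B : MvPowerSeries σ ℂ) z = eval z B := by
  unfold vl
  rw [tsum_eq_sum (s := B.support), MvPolynomial.eval_eq']
  · refine Finset.sum_congr rfl fun k _ => ?_
    rw [MvPolynomial.coeff_coe]
  · intro k hk
    rw [MvPolynomial.coeff_coe, MvPolynomial.notMem_support_iff.mp hk, zero_mul]

theorem as_inv {P : MvPolynomial σ ℂ} (hP : ZeroFree P) {r : ℝ} (hr0 : 0 ≤ r) (hr1 : r < 1) :
    AS (invR P r) := by
  set r' : ℝ := (1 + r) / 2 with hr'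
  have h0 : 0 < r' := by rw [hr']; linarith
  have h1 : r' < 1 := by rw [hr']; linarith
  have h2 : r < r' := by rw [hr']; linarith
  set x : ℝ := r / r' with hx
  have hx0 : 0 ≤ x := div_nonneg hr0 h0.le
  have hx1 : x < 1 := (div_lt_one h0).mpr h2
  obtain ⟨A, B, hAB⟩ := bd_prod_geo h0.le h1 P.totalDegree
  set B' : ℝ := ‖(P.coeff 0)⁻¹‖ ^ 2 * B with hB'
  have hsl : ∀ ζ : σ → ℂ, (∀ j, ‖ζ j‖ = 1) → BdD (slice ζ (invR P r')) B' := by
    intro ζ hζ
    obtain ⟨s, hs1, hs2, hs3⟩ := slices hP ζ hζ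
    rw [(hs3 r').1]
    intro L
    have := (hAB s hs1 hs2).2 L
    calc ∑ n_1 ∈ Finset.range L, ((n_1 : ℝ) + 1) * ‖PowerSeries.coeff n_1
          (PowerSeries.C (P.coeff 0)⁻¹ * (s.map fun b => geo (r' * b)).prod)‖ ^ 2
        = ‖(P.coeff 0)⁻¹‖ ^ 2 * ∑ n_1 ∈ Finset.range L, ((n_1 : ℝ) + 1) *
          ‖PowerSeries.coeff n_1 ((s.map fun b => geo (r' * b)).prod)‖ ^ 2 := by
          rw [Finset.mul_sum]
          refine Finset.sum_congr rfl fun m _ => ?_
          rw [PowerSeries.coeff_C_mul, norm_mul, mul_pow]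
          ring
      _ ≤ _ := mul_le_mul_of_nonneg_left this (by positivity)
  have hcoef : ∀ k, ‖MvPowerSeries.coeff k (invR P r)‖ ≤ Real.sqrt B' * x ^ (∑ j, k j) := by
    intro k
    have h3 := sum_le_of_slices hsl {k}
    rw [Finset.sum_singleton] at h3
    have h4 : ‖MvPowerSeries.coeff k (invR P r')‖ ≤ Real.sqrt B' := by
      apply Real.le_sqrt_of_sq_le
      refine le_trans ?_ h3
      have h5 : (1:ℝ) ≤ ((∑ j, k j : ℕ) : ℝ) + 1 := by
        have : (0:ℝ) ≤ ((∑ j, k j : ℕ) : ℝ) := Nat.cast_nonneg _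
        linarith
      have h6 : 0 ≤ ‖MvPowerSeries.coeff k (invR P r')‖ ^ 2 := by positivity
      nlinarith
    have h7 : MvPowerSeries.coeff k (invR P r) =
        ((x : ℝ) : ℂ) ^ (∑ j, k j) * MvPowerSeries.coeff k (invR P r') := by
      rw [invR, invR, MvPowerSeries.coeff_rescale, MvPowerSeries.coeff_rescale,
        Finsupp.prod_fintype _ _ (by simp), Finsupp.prod_fintype _ _ (by simp),
        Finset.prod_pow_eq_pow_sum, Finset.prod_pow_eq_pow_sum, ← mul_assoc, ← mul_pow]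
      congr 2
      rw [← Complex.ofReal_mul, hx, div_mul_cancel₀ _ h0.ne']
    rw [h7, norm_mul, norm_pow, Complex.norm_real, Real.norm_of_nonneg hx0, mul_comm]
    exact mul_le_mul_of_nonneg_right h4 (pow_nonneg hx0 _)
  have h8 := (summable_prod_of_nonneg (σ := σ) (fun _ n => x ^ n) (fun j n => pow_nonneg hx0 n)
    (fun j => summable_geometric_of_lt_one hx0 hx1)).mul_left (Real.sqrt B')
  refine Summable.of_nonneg_of_le (fun _ => norm_nonneg _) (fun k => ?_) h8
  rw [Finset.prod_pow_eq_pow_sum]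
  exact hcoef k

theorem resc_mul_inv {P : MvPolynomial σ ℂ} (hP : ZeroFree P) (r : ℝ) :
    MvPowerSeries.rescale (fun _ => (r : ℂ)) (P : MvPowerSeries σ ℂ) * invR P r = 1 := by
  rw [invR, ← map_mul, MvPowerSeries.mul_inv_cancel _ (constantCoeff_ne hP), map_one]

theorem vl_one (z : σ → ℂ) : vl (1 : MvPowerSeries σ ℂ) z = 1 := by
  have := vl_poly (1 : MvPolynomial σ ℂ) z
  rwa [MvPolynomial.coe_one, map_one] at this

theorem as_one : AS (1 : MvPowerSeries σ ℂ) := by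
  have := as_poly (1 : MvPolynomial σ ℂ)
  rwa [MvPolynomial.coe_one] at this

theorem as_pow {G : MvPowerSeries σ ℂ} (hG : AS G) (m : ℕ) : AS (G ^ m) := by
  induction m with
  | zero => rw [pow_zero]; exact as_one
  | succ m ih => rw [pow_succ]; exact ih.mul hG

theorem vl_pow {G : MvPowerSeries σ ℂ} (hG : AS G) {z : σ → ℂ} (hz : ∀ j, ‖z j‖ = 1) (m : ℕ) :
    vl (G ^ m) z = vl G z ^ m := by
  induction m with
  | zero => rw [pow_zero, pow_zero, vl_one]
  | succ m ih => rw [pow_succ, pow_succ, vl_mul (as_pow hG m) hG hz, ih]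

theorem ev : S_EV := by
  intro σ _ _ P hP r hr0 hr1 B m
  have hI := as_inv hP hr0 hr1
  refine ⟨(as_poly B).mul (as_pow hI m), fun z hz => ?_⟩
  have h1 : vl (MvPowerSeries.rescale (fun _ => (r : ℂ)) (P : MvPowerSeries σ ℂ) * invR P r) z = 1 := by
    rw [resc_mul_inv hP r, vl_one]
  rw [vl_mul (as_resc P r) hI hz, vl_resc] at h1
  have h2 : vl (invR P r) z = (eval (fun j => (r : ℂ) * z j) P)⁻¹ := eq_inv_of_mul_eq_one_right h1
  change vl ((B : MvPowerSeries σ ℂ) * invR P r ^ m) z = _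
  rw [vl_mul (as_poly B) (as_pow hI m) hz, vl_pow hI hz, vl_poly, h2, inv_pow, div_eq_mul_inv]

end Pool.Agent.J6H97.TZEv
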